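import Mathlib

/-!
The exponents `w_n` and `lambda_n`, defined literally as suprema (in the extended reals).
-/

set_option autoImplicit false

open Polynomial

namespace Pool.Agent.MP_b9de27_nt.Spec

/-- The naive height: the maximum of the absolute values of the coefficients. -/
def height (P : ℤ[X]) : ℕ := P.support.sup fun i => (P.coeff i).natAbs

/-- `w_n(ξ)`: the supremum of the real `w` such that `0 < |P(ξ)| ≤ H(P)^(-w)` for infinitely many
integer polynomials `P` of degree at most `n`. -/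
noncomputable def wExp (n : ℕ) (ξ : ℝ) : EReal :=
  sSup ((fun w : ℝ => (w : EReal)) ''
    {w : ℝ | {P : ℤ[X] | P.natDegree ≤ n ∧ 0 < |aeval ξ P| ∧
      |aeval ξ P| ≤ (height P : ℝ) ^ (-w)}.Infinite})

/-- `lambda_n(ξ)`: the supremum of the real `l` such that, for arbitrarily large real `X`, the system
`0 < |x₀| ≤ X`, `|x₀ ξ^j - x_j| ≤ X^(-l)` for `1 ≤ j ≤ n` has an integer solution. -/
noncomputable def lamExp (n : ℕ) (ξ : ℝ) : EReal :=
  sSup ((fun l : ℝ => (l : EReal)) ''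
    {l : ℝ | ∀ X₀ : ℝ, ∃ X : ℝ, X₀ ≤ X ∧ ∃ x : Fin (n + 1) → ℤ, 0 < |(x 0 : ℝ)| ∧ |(x 0 : ℝ)| ≤ X ∧
      ∀ j : Fin (n + 1), j ≠ 0 → |(x 0 : ℝ) * ξ ^ (j : ℕ) - (x j : ℝ)| ≤ X ^ (-l)})

end Pool.Agent.MP_b9de27_nt.Spec
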